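import Pool.Agent.Lib.MP_e00b88_lc.Fam
import Pool.Agent.Lib.MP_e00b88_lc.Poly

/-!
MP_e00b88_lc: quasi-polynomial debordering of limits of sums of powers of linear forms taken from
diagonal translates of a fixed union of polynomially parametrised varieties.
-/

set_option autoImplicit false

open MvPolynomial Filter Topology

namespace Pool.Agent.Results.MP_e00b88_lc.DiagonalClosure

/-- `F` is a sum of `n` `d`-th powers of linear forms. -/
def IsWaring {m : ℕ} (d n : ℕ) (F : MvPolynomial (Fin m) ℂ) : Prop :=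
  ∃ ℓ : Fin n → MvPolynomial (Fin m) ℂ, (∀ i, (ℓ i).IsHomogeneous 1) ∧ F = ∑ i, ℓ i ^ d

/-- Fix `r` polynomial maps `c i` from `ℂ ^ s` to `ℂ ^ m`, of degree at most `q` in each of the `s`
parameters. Let `f` be a limit of forms
`∑ a, lam k a * (∑ j, τ k j * c (idx k a) j (e k a) * x j) ^ d`, where the number `n k` of summands,
the indices `idx k a < r`, the parameters `e k a` in `ℂ ^ s`, the scalars `lam k a` and the
diagonal matrix `τ k` are arbitrary. Put `R = r (d q + 1) ^ s`. Then `f` has Waring rank at most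
`R ^ 2 * (2 (m + 1) (2 d + 1)) ^ t` for every `t` with `R * (t + 2) < 2 ^ (t + 1)`. -/
theorem result (m d r s q t : ℕ) (hd : 1 ≤ d)
    (c : Fin r → Fin m → MvPolynomial (Fin s) ℂ) (hc : ∀ i j l, (c i j).degreeOf l ≤ q)
    (n : ℕ → ℕ) (idx : (k : ℕ) → Fin (n k) → Fin r) (e : (k : ℕ) → Fin (n k) → Fin s → ℂ)
    (lam : (k : ℕ) → Fin (n k) → ℂ) (τ : ℕ → Fin m → ℂ) (f : MvPolynomial (Fin m) ℂ)
    (hlim : ∀ σ : Fin m →₀ ℕ, Tendsto (fun k => coeff σ (∑ a, C (lam k a) *
      (∑ j, C (τ k j * eval (e k a) (c (idx k a) j)) * X j) ^ d :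
        MvPolynomial (Fin m) ℂ)) atTop (𝓝 (coeff σ f)))
    (ht : r * (d * q + 1) ^ s * (t + 2) < 2 ^ (t + 1)) :
    IsWaring d ((r * (d * q + 1) ^ s) ^ 2 * (2 * (m + 1) * (2 * d + 1)) ^ t) f := by
  classical
  have hM : ∀ β : Fin m → ℕ, ((Nat.multinomial Finset.univ β : ℕ) : ℂ) ≠ 0 := fun β =>
    Nat.cast_ne_zero.mpr (Nat.multinomial_pos _ _).ne'
  let E : (Fin m → ℕ) → (Fin m →₀ ℕ) := fun β => Finsupp.equivFunOnFinite.symm β
  have hE : ∀ β : Fin m → ℕ, ((E β : Fin m →₀ ℕ) : Fin m → ℕ) = β := fun β => by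
    funext j; simp [E]
  have hco : ∀ (k : ℕ) (σ : Fin m →₀ ℕ), coeff σ (∑ a, C (lam k a) *
      (∑ j, C (τ k j * eval (e k a) (c (idx k a) j)) * X j) ^ d :
        MvPolynomial (Fin m) ℂ) = if ∑ j, σ j = d then
      (Nat.multinomial Finset.univ (σ : Fin m → ℕ) : ℂ) * ∑ a, lam k a *
        ∏ j, (τ k j * eval (e k a) (c (idx k a) j)) ^ σ j else 0 := by
    intro k σ
    rw [coeff_sum]
    simp only [coeff_C_mul, WTorus.coeff_pow_lin]
    split_ifs with h
    · rw [Finset.mul_sum]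
      exact Finset.sum_congr rfl fun i _ => by ring
    · simp
  have hES : WTorus.ES m d ((r * (d * q + 1) ^ s) ^ 2 * (2 * (m + 1) * (2 * d + 1)) ^ t)
      (fun β => coeff (E β) f / (Nat.multinomial Finset.univ β : ℕ)) := by
    rw [sq, mul_assoc]
    refine WTorus.fam (d := d) (N := d * q) c (fun i l β hβ => ?_) atTop n idx τ e lam
      _ (fun β hβ => ?_) ht
    · refine (degreeOf_prod_le l Finset.univ _).trans ?_
      calc ∑ j, degreeOf l (c i j ^ β j) ≤ ∑ j, β j * q :=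
            Finset.sum_le_sum fun j _ => (degreeOf_pow_le l _ _).trans
              (Nat.mul_le_mul_left _ (hc i j l))
        _ = (∑ j, β j) * q := (Finset.sum_mul _ _ _).symm
        _ = d * q := by rw [hβ]
    · have h1 := (hlim (E β)).div_const ((Nat.multinomial Finset.univ β : ℕ) : ℂ)
      refine h1.congr fun k => ?_
      rw [hco, hE, if_pos hβ, mul_div_assoc, mul_comm, div_mul_cancel₀ _ (hM β)]
  have hzero : ∀ σ : Fin m →₀ ℕ, ∑ j, σ j ≠ d → coeff σ f = 0 := by
    intro σ hσ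
    refine tendsto_nhds_unique (hlim σ) ?_
    refine tendsto_const_nhds.congr fun k => ?_
    rw [hco, if_neg hσ]
  obtain ⟨κ, L, hL⟩ := hES
  have hroot : ∀ z : ℂ, ∃ u : ℂ, u ^ d = z := fun z =>
    IsAlgClosed.exists_pow_nat_eq z (by omega)
  choose u hu using hroot
  refine ⟨fun i => ∑ j, C (u (κ i) * L i j) * X j, fun i => WTorus.homog_lin _, ?_⟩
  ext σ
  rw [coeff_sum]
  simp only [WTorus.coeff_pow_lin]
  by_cases hs : ∑ j, σ j = d
  · simp only [if_pos hs]
    have h1 := hL (σ : Fin m → ℕ) hs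
    have h2 : E (σ : Fin m → ℕ) = σ := by ext j; simp [E]
    simp only [h2] at h1
    rw [div_eq_iff (hM _)] at h1
    rw [h1, Finset.sum_mul]
    refine Finset.sum_congr rfl fun i _ => ?_
    simp only [mul_pow, Finset.prod_mul_distrib]
    rw [Finset.prod_pow_eq_pow_sum, hs, hu]
    ring
  · simp only [if_neg hs, Finset.sum_const_zero]
    exact hzero σ hs

end Pool.Agent.Results.MP_e00b88_lc.DiagonalClosure
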