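import Pool.Agent.Lib.DeB.Main2

/-!
# Quasi-polynomial debordering of border Waring rank

There is a constant `C` such that every form of degree `d` and border Waring rank `≤ r` (in any
number of variables) has Waring rank at most `(d + 1) * 2 ^ (C * (log₂ r + 1) ^ 13)`.
So every p-family with polynomially bounded border Waring rank has Waring rank, hence Chow rank,
`2 ^ O((log n) ^ 13)`.

Proof (papers of helper19 and helper55): apolarity (Hankel rank, for `d ≥ r` an affine
normalisation and ultralimits), then a bound for all functions `a ↦ φ (a ^ j)` on a commutative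
algebra of dimension `≤ r`: specialisation of about `log r` generic elements to arcs over the field
of Hahn series, a Briancon-Skoda type theorem for finite algebras (`K ^ c = 0` for the intersection
`K` of the ideals of all arcs of bounded denominator), and a recursion over clusters of roots along
each arc.
-/

set_option autoImplicit false

open Filter Topology

namespace Pool.Agent.Results.MP_e00b88_lc.QuasiPolyDebordering

/-- Quasi-polynomial debordering: for single forms with a uniform constant, and for families in the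
words of question Q1 with a quasi-polynomial instead of a polynomial bound. -/
theorem result :
    (∃ C : ℕ, ∀ (n d r : ℕ) (f : MvPolynomial (Fin n) ℂ), f.IsHomogeneous d →
      (∃ g : ℕ → MvPolynomial (Fin n) ℂ,
        (∀ k, ∃ ℓ : Fin r → MvPolynomial (Fin n) ℂ,
          (∀ i, (ℓ i).IsHomogeneous 1) ∧ g k = ∑ i, ℓ i ^ d) ∧
        ∀ m : Fin n →₀ ℕ, Tendsto (fun k => MvPolynomial.coeff m (g k)) atTop
          (𝓝 (MvPolynomial.coeff m f))) →
      ∃ R : ℕ, R ≤ (d + 1) * 2 ^ (C * (Nat.log 2 r + 1) ^ 13) ∧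
        ∃ ℓ : Fin R → MvPolynomial (Fin n) ℂ,
          (∀ i, (ℓ i).IsHomogeneous 1) ∧ f = ∑ i, ℓ i ^ d) ∧
    (∀ (N d : ℕ → ℕ) (f : (n : ℕ) → MvPolynomial (Fin (N n)) ℂ),
      (∃ C s : ℕ, ∀ n, N n ≤ C * (n + 1) ^ s ∧ d n ≤ C * (n + 1) ^ s) →
      (∀ n, (f n).IsHomogeneous (d n)) →
      (∃ C s : ℕ, ∀ᶠ n in atTop, ∃ r : ℕ, r ≤ C * n ^ s ∧
        ∃ g : ℕ → MvPolynomial (Fin (N n)) ℂ,
          (∀ k, ∃ ℓ : Fin r → MvPolynomial (Fin (N n)) ℂ,
              (∀ i, (ℓ i).IsHomogeneous 1) ∧ g k = ∑ i, ℓ i ^ d n) ∧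
          ∀ m : Fin (N n) →₀ ℕ,
            Tendsto (fun k => MvPolynomial.coeff m (g k)) atTop
              (𝓝 (MvPolynomial.coeff m (f n)))) →
      ∃ C : ℕ, ∀ᶠ n in atTop, ∃ R : ℕ, R ≤ 2 ^ (C * Nat.log 2 n ^ 13) ∧
        (∃ ℓ : Fin R → MvPolynomial (Fin (N n)) ℂ,
          (∀ i, (ℓ i).IsHomogeneous 1) ∧ f n = ∑ i, ℓ i ^ d n) ∧
        ∃ ℓ : Fin R → Fin (d n) → MvPolynomial (Fin (N n)) ℂ,
          (∀ i j, (ℓ i j).IsHomogeneous 1) ∧ f n = ∑ i, ∏ j, ℓ i j) :=
  ⟨Pool.DeB.main2_form, fun N d f hN hf hb => Pool.DeB.main2_family N d f hN hf hb⟩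

end Pool.Agent.Results.MP_e00b88_lc.QuasiPolyDebordering
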