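import Pool.Agent.Lib.MP_e00b88_lc.Poly

/-!
MP_e00b88_lc: quasi-polynomial debordering for border Waring decompositions whose exponents are
unbounded only through a diagonal one-parameter subgroup.
-/

set_option autoImplicit false

open MvPolynomial Filter Topology LaurentPolynomial

namespace Pool.Agent.Results.MP_e00b88_lc.TorusLimits

/-- `F` is a sum of `n` `d`-th powers of linear forms. -/
def IsWaring {m : ℕ} (d n : ℕ) (F : MvPolynomial (Fin m) ℂ) : Prop :=
  ∃ ℓ : Fin n → MvPolynomial (Fin m) ℂ, (∀ i, (ℓ i).IsHomogeneous 1) ∧ F = ∑ i, ℓ i ^ d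

/-- Let `f` be a form of degree `d ≥ 1` in `m` variables which is a limit of forms of Waring rank
at most `r'`, and suppose that `f` is the coefficient of `ε ^ 0` in
`∑ i, (∑ j, ε ^ (w j) * c i j (ε) * x j) ^ d`, with arbitrary integers `w j` and Laurent polynomials
`c i j`, `i < r`. Let `E` be a finite set containing all exponents of `ε` in the products
`∏ j, (c i j) ^ (β j)` with `|β| = d`. Then `f` has Waring rank at most
`|E| ^ 2 * r * (2 (m + 1) (2 d + 1)) ^ t` for every `t` with `|E| * r' * (t + 2) < 2 ^ (t + 1)`. -/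
theorem result (m d r r' t : ℕ) (hd : 1 ≤ d) (f : MvPolynomial (Fin m) ℂ)
    (g : ℕ → MvPolynomial (Fin m) ℂ) (hg : ∀ k, IsWaring d r' (g k))
    (hlim : ∀ s : Fin m →₀ ℕ,
      Tendsto (fun k => MvPolynomial.coeff s (g k)) atTop (𝓝 (MvPolynomial.coeff s f)))
    (w : Fin m → ℤ) (c : Fin r → Fin m → ℂ[T;T⁻¹])
    (hf : ∀ s : Fin m →₀ ℕ, MvPolynomial.coeff s f =
      (MvPolynomial.coeff s (∑ i, (∑ j, MvPolynomial.C (T (w j) * c i j) * X j) ^ d :
        MvPolynomial (Fin m) ℂ[T;T⁻¹])).coeff 0)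
    (E : Finset ℤ) (hE : ∀ (i : Fin r) (β : Fin m → ℕ), ∑ j, β j = d →
      (∏ j, c i j ^ β j).coeff.support ⊆ E)
    (ht : E.card * r' * (t + 2) < 2 ^ (t + 1)) :
    IsWaring d (E.card ^ 2 * r * (2 * (m + 1) * (2 * d + 1)) ^ t) f := by
  classical
  have hM : ∀ β : Fin m → ℕ, ((Nat.multinomial Finset.univ β : ℕ) : ℂ) ≠ 0 := fun β =>
    Nat.cast_ne_zero.mpr (Nat.multinomial_pos _ _).ne'
  let e : (Fin m → ℕ) → (Fin m →₀ ℕ) := fun β => Finsupp.equivFunOnFinite.symm β
  have he : ∀ β : Fin m → ℕ, ((e β : Fin m →₀ ℕ) : Fin m → ℕ) = β := fun β => by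
    funext j; simp [e]
  let nor : MvPolynomial (Fin m) ℂ → (Fin m → ℕ) → ℂ := fun F β =>
    MvPolynomial.coeff (e β) F / (Nat.multinomial Finset.univ β : ℕ)
  have hnor : ∀ (n : ℕ) (F : MvPolynomial (Fin m) ℂ), IsWaring d n F →
      WTorus.ES m d n (nor F) := by
    rintro n F ⟨ℓ, hℓ, rfl⟩
    refine ⟨fun _ => 1, fun i j => MvPolynomial.coeff (Finsupp.single j 1) (ℓ i), fun β hβ => ?_⟩
    simp only [nor, MvPolynomial.coeff_sum, Finset.sum_div, one_mul]
    refine Finset.sum_congr rfl fun i _ => ?_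
    conv_lhs => rw [WTorus.eq_lin (hℓ i)]
    rw [WTorus.coeff_pow_lin, he, if_pos hβ, mul_div_assoc, mul_comm, div_mul_cancel₀ _ (hM β)]
  have hES : WTorus.ES m d (E.card ^ 2 * r * (2 * (m + 1) * (2 * d + 1)) ^ t) (nor f) := by
    refine WTorus.lau (n' := r') w c E hE (nor f) (fun β hβ => ?_) (fun k => nor (g k))
      (fun k => hnor r' _ (hg k)) (fun β _ => (hlim (e β)).div_const _) ht
    have h1 := hf (e β)
    simp only [MvPolynomial.coeff_sum, WTorus.coeff_pow_lin, he, if_pos hβ] at h1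
    simp only [nor]
    rw [h1, div_eq_iff (hM β), Finset.sum_mul, AddMonoidAlgebra.coeff_sum,
      Finsupp.finsetSum_apply]
    refine Finset.sum_congr rfl fun i _ => ?_
    rw [← nsmul_eq_mul, AddMonoidAlgebra.coeff_smul, Finsupp.smul_apply, nsmul_eq_mul, mul_comm]
  have hzero : ∀ s : Fin m →₀ ℕ, ∑ j, s j ≠ d → MvPolynomial.coeff s f = 0 := by
    intro s hs
    rw [hf s]
    simp only [MvPolynomial.coeff_sum, WTorus.coeff_pow_lin, if_neg hs, Finset.sum_const_zero]
    rfl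
  obtain ⟨κ, L, hL⟩ := hES
  have hroot : ∀ z : ℂ, ∃ u : ℂ, u ^ d = z := fun z =>
    IsAlgClosed.exists_pow_nat_eq z (by omega)
  choose u hu using hroot
  refine ⟨fun i => ∑ j, MvPolynomial.C (u (κ i) * L i j) * X j, fun i => WTorus.homog_lin _, ?_⟩
  ext s
  rw [MvPolynomial.coeff_sum]
  simp only [WTorus.coeff_pow_lin]
  by_cases hs : ∑ j, s j = d
  · simp only [if_pos hs]
    have h1 := hL (s : Fin m → ℕ) hs
    have h2 : e (s : Fin m → ℕ) = s := by ext j; simp [e]
    simp only [nor, h2] at h1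
    rw [div_eq_iff (hM _)] at h1
    rw [h1, Finset.sum_mul]
    refine Finset.sum_congr rfl fun i _ => ?_
    simp only [mul_pow, Finset.prod_mul_distrib]
    rw [Finset.prod_pow_eq_pow_sum, hs, hu]
    ring
  · simp only [if_neg hs, Finset.sum_const_zero]
    exact hzero s hs

end Pool.Agent.Results.MP_e00b88_lc.TorusLimits
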